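import Pool.Agent.H67.KM7.Sec

/-!
# The local label potential: join and meet (row SUB)
-/

set_option autoImplicit false

namespace Pool.KM7

open Finset Real
open Pool.Agent.H49.Ent Pool.Agent.H32.Dense Pool.STK Pool.KA

namespace S67

lemma Ex_sup {Ω : Type} [Fintype Ω] {p : Ω → ℝ} (hp : IsLaw p) {f : Ω → ℝ} {c : ℝ}
    (h : ∀ ω, 0 < p ω → f ω = c) : Ex p f = c := by
  have h1 : Ex p f = Ex p (fun _ => c) :=
    le_antisymm (Ex_mono hp.nonneg fun ω hω => (h ω hω).le)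
      (Ex_mono hp.nonneg fun ω hω => (h ω hω).ge)
  rw [h1, Ex_const hp.sum_one]

variable {w L : ℕ}

/-- The position at the beginning of the large window. -/
lemma xw (G : Fam 2 (w + L)) (ω : G.Ω) (j : Fin 2) :
    (G.trc w (Nat.le_add_right w L)).x ω j =
      G.x ω j + (-((G.T ω % 2 ^ L : ℕ) : ℝ)) * (G.d ω j / 2 ^ (w + L)) := by
  change G.u ω j + ((G.T ω / 2 ^ (w + L - w) : ℕ) : ℝ) / 2 ^ w * G.d ω j =
    G.u ω j + (G.T ω : ℝ) / 2 ^ (w + L) * G.d ω j +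
      (-((G.T ω % 2 ^ L : ℕ) : ℝ)) * (G.d ω j / 2 ^ (w + L))
  rw [Nat.add_sub_cancel_left]
  have h1 : (G.T ω : ℝ) = ((G.T ω / 2 ^ L : ℕ) : ℝ) * 2 ^ L + ((G.T ω % 2 ^ L : ℕ) : ℝ) := by
    have := Nat.div_add_mod' (G.T ω) (2 ^ L)
    exact_mod_cast this.symm
  rw [h1, pow_add]
  field_simp
  ring

/-- Differences of positions, given the time and the section. -/
lemma dx (G : Fam 2 (w + L)) {ω ω' : G.Ω} (hT : G.T ω % 2 ^ L = G.T ω' % 2 ^ L) :
    (fun j => (G.trc w (Nat.le_add_right w L)).x ω j - (G.trc w (Nat.le_add_right w L)).x ω' j) =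
      fun j => (G.x ω j - G.x ω' j) + (-((G.T ω % 2 ^ L : ℕ) : ℝ)) *
        (G.d ω j / 2 ^ (w + L) - G.d ω' j / 2 ^ (w + L)) := by
  funext j
  rw [xw, xw, hT]
  ring

lemma dd (G : Fam 2 (w + L)) (ω ω' : G.Ω) :
    (fun j => (G.trc w (Nat.le_add_right w L)).d ω j / 2 ^ w -
      (G.trc w (Nat.le_add_right w L)).d ω' j / 2 ^ w) =
      fun j => 2 ^ L * (G.d ω j / 2 ^ (w + L) - G.d ω' j / 2 ^ (w + L)) := by
  funext j
  change G.d ω j / 2 ^ w - G.d ω' j / 2 ^ w = _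
  rw [pow_add]
  field_simp

/-- The position at the beginning of the window, from the second time. -/
lemma x' (G : Fam 2 (w + L)) (T' : G.Ω → ℕ) (hT' : ∀ ω, T' ω < 2 ^ (w + L)) (ω : G.Ω)
    (h : T' ω / 2 ^ L = G.T ω / 2 ^ L) (j : Fin 2) :
    (G.trc w (Nat.le_add_right w L)).x ω j =
      ((setT G T' hT').trc w (Nat.le_add_right w L)).x ω j := by
  change G.u ω j + ((G.T ω / 2 ^ (w + L - w) : ℕ) : ℝ) / 2 ^ w * G.d ω j =
    G.u ω j + ((T' ω / 2 ^ (w + L - w) : ℕ) : ℝ) / 2 ^ w * G.d ω j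
  rw [Nat.add_sub_cancel_left, h]

lemma r_lt (t L : ℕ) : |(-((t % 2 ^ L : ℕ) : ℝ))| ≤ 2 ^ L := by
  rw [abs_neg, abs_of_nonneg (Nat.cast_nonneg _)]
  have := (Nat.mod_lt t (show 0 < 2 ^ L by positivity)).le
  exact_mod_cast this

end S67

open S67

theorem S67.sub_thm : SUBStmt := by
  obtain ⟨C0, hC0⟩ : ∃ C0 : ℝ, C0 = 2 * Real.log (2 * (4 + 1) + 1) +
    2 * Real.log (2 * (2 + 1) + 1) := ⟨_, rfl⟩
  obtain ⟨C1, hC1⟩ : ∃ C1 : ℝ, C1 = 2 * Real.log (2 * (8 + 1) + 1) +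
    2 * Real.log (2 * (4 + 1) + 1) := ⟨_, rfl⟩
  obtain ⟨Ca, hCa⟩ : ∃ Ca : ℝ, Ca = Real.log (2 * 6 + 1) := ⟨_, rfl⟩
  obtain ⟨C2, hC2⟩ : ∃ C2 : ℝ, C2 = 2 * Real.log (2 * (15 + 1) + 1) + 2 * Real.log 9 := ⟨_, rfl⟩
  have n0 : 0 ≤ C0 := by
    rw [hC0]
    have := Real.log_nonneg (show (1 : ℝ) ≤ 2 * (4 + 1) + 1 by norm_num)
    have := Real.log_nonneg (show (1 : ℝ) ≤ 2 * (2 + 1) + 1 by norm_num)
    linarith
  have n1 : 0 ≤ C1 := by
    rw [hC1]
    have := Real.log_nonneg (show (1 : ℝ) ≤ 2 * (8 + 1) + 1 by norm_num)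
    have := Real.log_nonneg (show (1 : ℝ) ≤ 2 * (4 + 1) + 1 by norm_num)
    linarith
  have na : 0 ≤ Ca := by
    rw [hCa]
    exact Real.log_nonneg (by norm_num)
  have n2 : 0 ≤ C2 := by
    rw [hC2]
    have := Real.log_nonneg (show (1 : ℝ) ≤ 2 * (15 + 1) + 1 by norm_num)
    have := Real.log_nonneg (show (1 : ℝ) ≤ 9 by norm_num)
    linarith
  refine ⟨C0 + C1 + Ca + C2, by linarith, ?_⟩
  intro κ hκ0 hκ1 w L R G T' hT' q₀ q₁ c h p s hTwo hR hs hsep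
  have hp := G.isLaw
  have hlo := hTwo.lo
  have hl2 : 0 < Real.log 2 := Real.log_pos (by norm_num)
  obtain ⟨α, hα⟩ : ∃ α : G.Ω → ℤ, ∀ ω, α ω = (q₀ ω).a / 2 ^ s := ⟨_, fun _ => rfl⟩
  obtain ⟨qM, hqM⟩ : ∃ qM : G.Ω → Sec, ∀ ω, qM ω = ⟨c, h - L, p - s, α ω⟩ := ⟨_, fun _ => rfl⟩
  obtain ⟨qJ, hqJ⟩ : ∃ qJ : G.Ω → Sec, ∀ ω, qJ ω = ⟨c, h + s, p - s, α ω⟩ := ⟨_, fun _ => rfl⟩
  have e0 : ∀ ω, 0 < G.p ω → q₀ ω = ⟨c, h, p, (q₀ ω).a⟩ := by
    intro ω hω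
    obtain ⟨h1, h2, h3, -⟩ := hTwo.c0 ω hω
    obtain ⟨x, hx⟩ : ∃ x, x = q₀ ω := ⟨_, rfl⟩
    rw [← hx] at h1 h2 h3 ⊢
    rcases x with ⟨a1, a2, a3, a4⟩
    simp only at h1 h2 h3
    subst h1 h2 h3
    rfl
  have e1 : ∀ ω, 0 < G.p ω → q₁ ω = ⟨c, h, p, (q₁ ω).a⟩ := by
    intro ω hω
    obtain ⟨h1, h2, h3, -⟩ := hTwo.c1 ω hω
    obtain ⟨x, hx⟩ : ∃ x, x = q₁ ω := ⟨_, rfl⟩
    rw [← hx] at h1 h2 h3 ⊢
    rcases x with ⟨a1, a2, a3, a4⟩
    simp only at h1 h2 h3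
    subst h1 h2 h3
    rfl
  have f0 : ∀ ω, |(2 : ℝ) ^ s * (α ω : ℝ) - (q₀ ω).a| ≤ 2 ^ s := by
    intro ω
    rw [hα]
    exact al_near _ _
  have f1 : ∀ ω, 0 < G.p ω → |(2 : ℝ) ^ s * (α ω : ℝ) - (q₁ ω).a| ≤ 3 * 2 ^ s := by
    intro ω hω
    have h1 := f0 ω
    have h2 := (hsep ω hω).2
    have h3 : |((q₀ ω).a : ℝ) - (q₁ ω).a| < 2 ^ (s + 1) := by exact_mod_cast h2
    rw [pow_succ] at h3
    rw [abs_le] at h1 ⊢
    rw [abs_lt] at h3
    constructor <;> linarith [h1.1, h1.2, h3.1, h3.2]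
  have pL : (0 : ℝ) < 2 ^ L := by positivity
  have pL1 : (1 : ℝ) ≤ 2 ^ L := one_le_pow₀ (by norm_num)
  have hLh : L ≤ h := by omega
  -- the meet, from the first label
  have m0 : CH G.p (Lab (G.trc w (Nat.le_add_right w L)) qM) (fun ω => (Lab G q₀ ω, G.Z ω)) ≤
      C0 := by
    rw [hC0]
    have key : ∀ ω ω', 0 < G.p ω → 0 < G.p ω' → (Lab G q₀ ω, G.Z ω) = (Lab G q₀ ω', G.Z ω') →
        G.T ω = G.T ω' ∧ q₀ ω = q₀ ω' ∧
        (∀ i, |(Sec.mk c h p (q₀ ω).a).co (fun j => G.x ω j - G.x ω' j) i| ≤ 1) ∧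
        ∀ i, |(Sec.mk c h p (q₀ ω).a).co
          (fun j => G.d ω j / 2 ^ (w + L) - G.d ω' j / 2 ^ (w + L)) i| ≤ 1 := by
      intro ω ω' a b hh
      obtain ⟨h1, h2, h3, h4⟩ := lab_eq G q₀ (Prod.ext_iff.1 hh).1
      rw [e0 ω a] at h3 h4
      exact ⟨h1, h2, h3, h4⟩
    refine lab_ent (G.trc w (Nat.le_add_right w L)) qM _ 4 2 ?_ ?_ ?_
    · intro ω ω' a b hh
      obtain ⟨h1, h2, -, -⟩ := key ω ω' a b hh
      change (G.T ω / 2 ^ (w + L - w), qM ω) = (G.T ω' / 2 ^ (w + L - w), qM ω')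
      rw [h1, hqM, hqM, hα, hα, h2]
    · intro ω ω' a b hh i
      obtain ⟨-, -, -, h4⟩ := key ω ω' a b hh
      rw [dd, co_smul, hqM, abs_mul, abs_of_pos pL]
      have h5 := meet_co (k := 1) hs hLh zero_le_one (by rw [one_mul]; exact f0 ω) h4 i
      rw [le_div_iff₀ pL] at h5
      linarith
    · intro ω ω' a b hh _ i
      obtain ⟨h1, -, h3, h4⟩ := key ω ω' a b hh
      rw [dx G (by rw [h1]), hqM]
      have h6 := meet_co (k := 1) (B := 2 * 2 ^ L) hs hLh zero_le_one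
        (by rw [one_mul]; exact f0 ω) (y := fun j => (G.x ω j - G.x ω' j) +
          (-((G.T ω % 2 ^ L : ℕ) : ℝ)) * (G.d ω j / 2 ^ (w + L) - G.d ω' j / 2 ^ (w + L)))
        (fun i => by
          rw [co_lin]
          refine (abs_add_le _ _).trans ?_
          rw [abs_mul]
          have h7 := mul_le_mul (r_lt (G.T ω) L) (h4 i) (abs_nonneg _) pL.le
          have h8 := h3 i
          linarith) i
      rw [le_div_iff₀ pL] at h6
      refine le_of_mul_le_mul_right ?_ pL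
      linarith
  -- the meet, from the second label
  have key1 : ∀ ω ω', 0 < G.p ω → 0 < G.p ω' →
      Lab (setT G T' hT') q₁ ω = Lab (setT G T' hT') q₁ ω' →
      T' ω = T' ω' ∧ q₁ ω = q₁ ω' ∧
      (∀ i, |(Sec.mk c h p (q₁ ω).a).co
        (fun j => (setT G T' hT').x ω j - (setT G T' hT').x ω' j) i| ≤ 1) ∧
      ∀ i, |(Sec.mk c h p (q₁ ω).a).co
        (fun j => G.d ω j / 2 ^ (w + L) - G.d ω' j / 2 ^ (w + L)) i| ≤ 1 := by
    intro ω ω' a b hh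
    obtain ⟨h1, h2, h3, h4⟩ := lab_eq (setT G T' hT') q₁ hh
    rw [e1 ω a] at h3 h4
    exact ⟨h1, h2, h3, h4⟩
  have hxx : ∀ ω ω', 0 < G.p ω → 0 < G.p ω' → T' ω = T' ω' →
      (fun j => (G.trc w (Nat.le_add_right w L)).x ω j -
        (G.trc w (Nat.le_add_right w L)).x ω' j) =
      fun j => ((setT G T' hT').x ω j - (setT G T' hT').x ω' j) +
        (-((T' ω % 2 ^ L : ℕ) : ℝ)) * (G.d ω j / 2 ^ (w + L) - G.d ω' j / 2 ^ (w + L)) := by
    intro ω ω' a b ht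
    have h1 := dx (setT G T' hT') (ω := ω) (ω' := ω') (by
      change T' ω % 2 ^ L = T' ω' % 2 ^ L
      rw [ht])
    refine Eq.trans ?_ h1
    funext j
    rw [x' G T' hT' ω (hTwo.tm ω a) j, x' G T' hT' ω' (hTwo.tm ω' b) j]
  have hTe : ∀ ω ω', 0 < G.p ω → 0 < G.p ω' → T' ω = T' ω' →
      G.T ω / 2 ^ (w + L - w) = G.T ω' / 2 ^ (w + L - w) := by
    intro ω ω' a b ht
    rw [Nat.add_sub_cancel_left, ← hTwo.tm ω a, ← hTwo.tm ω' b, ht]
  have m1 : CH G.p (Lab (G.trc w (Nat.le_add_right w L)) qM)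
      (fun ω => (α ω, (Lab (setT G T' hT') q₁ ω, G.Z ω))) ≤ C1 := by
    rw [hC1]
    refine lab_ent (G.trc w (Nat.le_add_right w L)) qM _ 8 4 ?_ ?_ ?_
    · intro ω ω' a b hh
      obtain ⟨h1, -, -, -⟩ := key1 ω ω' a b (Prod.ext_iff.1 (Prod.ext_iff.1 hh).2).1
      have h2 : α ω = α ω' := (Prod.ext_iff.1 hh).1
      change (G.T ω / 2 ^ (w + L - w), qM ω) = (G.T ω' / 2 ^ (w + L - w), qM ω')
      rw [hTe ω ω' a b h1, hqM, hqM, h2]
    · intro ω ω' a b hh i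
      obtain ⟨-, -, -, h4⟩ := key1 ω ω' a b (Prod.ext_iff.1 (Prod.ext_iff.1 hh).2).1
      rw [dd, co_smul, hqM, abs_mul, abs_of_pos pL]
      have h5 := meet_co (k := 3) hs hLh (by norm_num) (f1 ω a) h4 i
      rw [le_div_iff₀ pL] at h5
      linarith
    · intro ω ω' a b hh _ i
      obtain ⟨h1, -, h3, h4⟩ := key1 ω ω' a b (Prod.ext_iff.1 (Prod.ext_iff.1 hh).2).1
      rw [hxx ω ω' a b h1, hqM]
      have h6 := meet_co (k := 3) (B := 2 * 2 ^ L) hs hLh (by norm_num) (f1 ω a)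
        (y := fun j => ((setT G T' hT').x ω j - (setT G T' hT').x ω' j) +
          (-((T' ω % 2 ^ L : ℕ) : ℝ)) * (G.d ω j / 2 ^ (w + L) - G.d ω' j / 2 ^ (w + L)))
        (fun i => by
          rw [co_lin]
          refine (abs_add_le _ _).trans ?_
          rw [abs_mul]
          have h7 := mul_le_mul (r_lt (T' ω) L) (h4 i) (abs_nonneg _) pL.le
          have h8 := h3 i
          linarith) i
      rw [le_div_iff₀ pL] at h6
      refine le_of_mul_le_mul_right ?_ pL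
      linarith
  have ma : CH G.p α (fun ω => (Lab (setT G T' hT') q₁ ω, G.Z ω)) ≤ Ca := by
    have h1 : CH G.p α (fun ω => (Lab (setT G T' hT') q₁ ω, G.Z ω)) ≤
        CH G.p (fun ω (_ : Fin 1) => α ω) (fun ω => (Lab (setT G T' hT') q₁ ω, G.Z ω)) := by
      refine CH_mono_left hp.nonneg ?_
      intro ω ω' _ _ hh
      exact congrFun (Prod.ext_iff.1 hh).1 0
    have h2 := vec hp (fun ω (_ : Fin 1) => α ω) (fun ω => (Lab (setT G T' hT') q₁ ω, G.Z ω)) 6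
      (fun ω ω' a b hh _ => by
        obtain ⟨-, h2, -, -⟩ := key1 ω ω' a b (Prod.ext_iff.1 hh).1
        have h3 := f1 ω a
        have h4 := f1 ω' b
        rw [h2] at h3
        have h5 : |(2 : ℝ) ^ s * ((α ω : ℝ) - α ω')| ≤ 6 * 2 ^ s := by
          rw [abs_le] at h3 h4 ⊢
          constructor <;> linarith [h3.1, h3.2, h4.1, h4.2]
        rw [abs_mul, abs_of_pos (by positivity : (0 : ℝ) < 2 ^ s)] at h5
        push_cast
        refine le_of_mul_le_mul_left ?_ (by positivity : (0 : ℝ) < 2 ^ s)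
        linarith)
    rw [hCa]
    push_cast at h2
    linarith
  have m2 : CH G.p (Lab (G.trc w (Nat.le_add_right w L)) qM)
      (fun ω => (Lab (setT G T' hT') q₁ ω, G.Z ω)) ≤ C1 + Ca := by
    have h1 := CH_le_add hp.nonneg (Lab (G.trc w (Nat.le_add_right w L)) qM) α
      (fun ω => (Lab (setT G T' hT') q₁ ω, G.Z ω))
    linarith
  -- the join
  have j1 : CH G.p (Lab (G.trc w (Nat.le_add_right w L)) qJ)
      (fun ω => ((Lab G q₀ ω, Lab (setT G T' hT') q₁ ω), G.Z ω)) ≤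
      2 * (L * Real.log 2) + C2 := by
    have key : ∀ ω ω', 0 < G.p ω → 0 < G.p ω' →
        ((Lab G q₀ ω, Lab (setT G T' hT') q₁ ω), G.Z ω) =
          ((Lab G q₀ ω', Lab (setT G T' hT') q₁ ω'), G.Z ω') →
        G.T ω = G.T ω' ∧ q₀ ω = q₀ ω' ∧ T' ω = T' ω' ∧
        (∀ i, |(Sec.mk c h p (q₀ ω).a).co (fun j => G.x ω j - G.x ω' j) i| ≤ 1) ∧
        (∀ i, |(Sec.mk c h p (q₀ ω).a).co
          (fun j => G.d ω j / 2 ^ (w + L) - G.d ω' j / 2 ^ (w + L)) i| ≤ 1) ∧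
        (∀ i, |(Sec.mk c h p (q₁ ω).a).co
          (fun j => (setT G T' hT').x ω j - (setT G T' hT').x ω' j) i| ≤ 1) ∧
        ∀ i, |(Sec.mk c h p (q₁ ω).a).co
          (fun j => G.d ω j / 2 ^ (w + L) - G.d ω' j / 2 ^ (w + L)) i| ≤ 1 := by
      intro ω ω' a b hh
      obtain ⟨h1, h2, h3, h4⟩ := lab_eq G q₀ (Prod.ext_iff.1 (Prod.ext_iff.1 hh).1).1
      rw [e0 ω a] at h3 h4
      obtain ⟨k1, -, k3, k4⟩ := key1 ω ω' a b (Prod.ext_iff.1 (Prod.ext_iff.1 hh).1).2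
      exact ⟨h1, h2, k1, h3, h4, k3, k4⟩
    have hent := lab_ent (G.trc w (Nat.le_add_right w L)) qJ
      (fun ω => ((Lab G q₀ ω, Lab (setT G T' hT') q₁ ω), G.Z ω)) 15 (3 * 2 ^ L) ?_ ?_ ?_
    · have h1 : Real.log (2 * (3 * 2 ^ L + 1) + 1) ≤ L * Real.log 2 + Real.log 9 := by
        rw [← Real.log_pow, ← Real.log_mul (by positivity) (by norm_num)]
        refine Real.log_le_log (by positivity) ?_
        linarith
      rw [hC2]
      refine le_trans hent ?_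
      linarith
    · intro ω ω' a b hh
      obtain ⟨h1, h2, -⟩ := key ω ω' a b hh
      change (G.T ω / 2 ^ (w + L - w), qJ ω) = (G.T ω' / 2 ^ (w + L - w), qJ ω')
      rw [h1, hqJ, hqJ, hα, hα, h2]
    · intro ω ω' a b hh i
      obtain ⟨-, -, -, -, h4, -, h6⟩ := key ω ω' a b hh
      rw [dd, co_smul, hqJ, abs_mul, abs_of_pos pL]
      have h5 := join_co hs (f0 ω) (hsep ω a).1 h4 h6 i
      have h7 := mul_le_mul_of_nonneg_left h5 pL.le
      linarith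
    · intro ω ω' a b hh hsm i
      obtain ⟨h1, -, h2, h3, -, h5, -⟩ := key ω ω' a b hh
      rw [hqJ] at hsm ⊢
      obtain ⟨V, hV⟩ : ∃ V : Fin 2 → ℝ, V = fun j => 2 ^ L *
        (G.d ω j / 2 ^ (w + L) - G.d ω' j / 2 ^ (w + L)) := ⟨_, rfl⟩
      rw [dd, ← hV] at hsm
      have i0 := fun i => inv_co (a := (q₀ ω).a) (k := 1) hs zero_le_one
        (by rw [one_mul, abs_sub_comm]; exact f0 ω) hsm i
      have i1 := fun i => inv_co (a := (q₁ ω).a) (k := 3) hs (by norm_num)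
        (by rw [abs_sub_comm]; exact f1 ω a) hsm i
      have r0 : ∀ t : ℕ, |(-((t % 2 ^ L : ℕ) : ℝ)) / 2 ^ L| ≤ 1 := by
        intro t
        rw [abs_div, abs_of_pos pL, div_le_one pL]
        exact r_lt t L
      refine (join_co (B := 5) hs (f0 ω) (hsep ω a).1 (fun i => ?_) (fun i => ?_) i).trans
        (by norm_num)
      · rw [dx G (by rw [h1])]
        have e : (fun j => (G.x ω j - G.x ω' j) + (-((G.T ω % 2 ^ L : ℕ) : ℝ)) *
            (G.d ω j / 2 ^ (w + L) - G.d ω' j / 2 ^ (w + L))) =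
            fun j => (G.x ω j - G.x ω' j) + (-((G.T ω % 2 ^ L : ℕ) : ℝ)) / 2 ^ L * V j := by
          funext j
          rw [hV]
          field_simp
        rw [e, co_lin]
        refine (abs_add_le _ _).trans ?_
        rw [abs_mul]
        have h7 := mul_le_mul (r0 (G.T ω)) (i0 i) (abs_nonneg _) zero_le_one
        have h8 := h3 i
        linarith
      · rw [hxx ω ω' a b h2]
        have e : (fun j => ((setT G T' hT').x ω j - (setT G T' hT').x ω' j) +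
            (-((T' ω % 2 ^ L : ℕ) : ℝ)) * (G.d ω j / 2 ^ (w + L) - G.d ω' j / 2 ^ (w + L))) =
            fun j => ((setT G T' hT').x ω j - (setT G T' hT').x ω' j) +
              (-((T' ω % 2 ^ L : ℕ) : ℝ)) / 2 ^ L * V j := by
          funext j
          rw [hV]
          field_simp
        rw [e, co_lin]
        refine (abs_add_le _ _).trans ?_
        rw [abs_mul]
        have h7 := mul_le_mul (r0 (T' ω)) (i1 i) (abs_nonneg _) zero_le_one
        have h8 := h5 i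
        linarith
  have hJM := join_meet_le hp.nonneg (Lab G q₀) (Lab (setT G T' hT') q₁)
    (Lab (G.trc w (Nat.le_add_right w L)) qM) (Lab (G.trc w (Nat.le_add_right w L)) qJ) G.Z
  -- the potentials
  have p0 : Psi κ G q₀ = ((w + L : ℕ) : ℝ) * Real.log 2 +
      (2 * (h : ℝ) + (1 - κ) * p) * Real.log 2 - CH G.p (Lab G q₀) G.Z := by
    unfold Psi
    rw [Ex_sup hp (c := (2 * (h : ℝ) + (1 - κ) * p) * Real.log 2)]
    intro ω hω
    rw [e0 ω hω]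
  have p1 : Psi κ (setT G T' hT') q₁ = ((w + L : ℕ) : ℝ) * Real.log 2 +
      (2 * (h : ℝ) + (1 - κ) * p) * Real.log 2 - CH G.p (Lab (setT G T' hT') q₁) G.Z := by
    have hE : Ex (setT G T' hT').p (fun ω => (2 * ((q₁ ω).h : ℝ) + (1 - κ) * (q₁ ω).p) *
        Real.log 2) = (2 * (h : ℝ) + (1 - κ) * p) * Real.log 2 :=
      Ex_sup (Ω := G.Ω) (p := G.p) hp (fun ω hω => by rw [e1 ω hω])
    unfold Psi
    rw [hE]
    rfl
  have pM : Psi κ (G.trc w (Nat.le_add_right w L)) qM = (w : ℝ) * Real.log 2 +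
      (2 * ((h - L : ℕ) : ℝ) + (1 - κ) * ((p - s : ℕ) : ℝ)) * Real.log 2 -
        CH G.p (Lab (G.trc w (Nat.le_add_right w L)) qM) G.Z := by
    have hE : Ex (G.trc w (Nat.le_add_right w L)).p (fun ω => (2 * ((qM ω).h : ℝ) +
        (1 - κ) * (qM ω).p) * Real.log 2) =
        (2 * ((h - L : ℕ) : ℝ) + (1 - κ) * ((p - s : ℕ) : ℝ)) * Real.log 2 :=
      Ex_sup (Ω := G.Ω) (p := G.p) hp (fun ω hω => by rw [hqM])
    unfold Psi
    rw [hE]
    rfl
  have pJ : Psi κ (G.trc w (Nat.le_add_right w L)) qJ = (w : ℝ) * Real.log 2 +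
      (2 * ((h + s : ℕ) : ℝ) + (1 - κ) * ((p - s : ℕ) : ℝ)) * Real.log 2 -
        CH G.p (Lab (G.trc w (Nat.le_add_right w L)) qJ) G.Z := by
    have hE : Ex (G.trc w (Nat.le_add_right w L)).p (fun ω => (2 * ((qJ ω).h : ℝ) +
        (1 - κ) * (qJ ω).p) * Real.log 2) =
        (2 * ((h + s : ℕ) : ℝ) + (1 - κ) * ((p - s : ℕ) : ℝ)) * Real.log 2 :=
      Ex_sup (Ω := G.Ω) (p := G.p) hp (fun ω hω => by rw [hqJ])
    unfold Psi
    rw [hE]
    rfl
  have cM : ((h - L : ℕ) : ℝ) = (h : ℝ) - L := Nat.cast_sub hLh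
  have cp : ((p - s : ℕ) : ℝ) = (p : ℝ) - s := Nat.cast_sub hs
  rw [cM, cp] at pM
  rw [cp] at pJ
  push_cast at p0 p1 pJ
  have hsl : ∀ ω, 0 < G.p ω → |α ω| ≤ 4 * 2 ^ (p - s) := by
    intro ω hω
    have h1 := (hTwo.c0 ω hω).2.2.2
    have eP : (2 : ℤ) ^ p = 2 ^ (p - s) * 2 ^ s := by rw [← pow_add, Nat.sub_add_cancel hs]
    have pS : (0 : ℤ) < 2 ^ s := by positivity
    rw [hα, abs_le]
    rw [abs_le, eP] at h1
    constructor
    · rw [Int.le_ediv_iff_mul_le pS]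
      linarith [h1.1]
    · refine Int.le_of_lt_add_one ?_
      rw [Int.ediv_lt_iff_lt_mul pS]
      nlinarith [h1.2]
  have key : Psi κ G q₀ + Psi κ (setT G T' hT') q₁ - 6 * (L * Real.log 2) +
      2 * (κ * (s * Real.log 2)) - (C0 + C1 + Ca + C2) ≤
      Psi κ (G.trc w (Nat.le_add_right w L)) qJ + Psi κ (G.trc w (Nat.le_add_right w L)) qM := by
    rw [p0, p1, pM, pJ]
    have : Real.log 2 * ((w : ℝ) + L) = (w + L) * Real.log 2 := by ring
    nlinarith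
  rcases le_total (Psi κ (G.trc w (Nat.le_add_right w L)) qM)
    (Psi κ (G.trc w (Nat.le_add_right w L)) qJ) with hle | hle
  · have hx : (Psi κ G q₀ + Psi κ (setT G T' hT') q₁) / 2 - 3 * (L * Real.log 2) +
        κ * (s * Real.log 2) - (C0 + C1 + Ca + C2) ≤
        Psi κ (G.trc w (Nat.le_add_right w L)) qJ := by linarith
    refine get_self (G.trc w (Nat.le_add_right w L)) qJ (fun ω hω => ?_) hx
    rw [hqJ]
    refine ⟨?_, ?_, ?_⟩
    · show w ≤ h + s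
      omega
    · show h + s + (p - s) ≤ R
      omega
    · exact hsl ω hω
  · have hx : (Psi κ G q₀ + Psi κ (setT G T' hT') q₁) / 2 - 3 * (L * Real.log 2) +
        κ * (s * Real.log 2) - (C0 + C1 + Ca + C2) ≤
        Psi κ (G.trc w (Nat.le_add_right w L)) qM := by linarith
    refine get_self (G.trc w (Nat.le_add_right w L)) qM (fun ω hω => ?_) hx
    rw [hqM]
    refine ⟨?_, ?_, ?_⟩
    · show w ≤ h - L
      omega
    · show h - L + (p - s) ≤ R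
      omega
    · exact hsl ω hω

end Pool.KM7
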