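import Pool.Agent.H15.KM7.Stmts
import Pool.Agent.H55.KM7.Info

/-!
# The local label potential: sections, for the row SUB
-/

set_option autoImplicit false

namespace Pool.KM7

open Finset Real
open Pool.Agent.H49.Ent Pool.Agent.H32.Dense Pool.STK Pool.KA

namespace S67

/-! ### Coordinates -/

lemma co0 (q : Sec) (y : Fin 2 → ℝ) :
    q.co y 0 = 2 ^ q.h * (2 ^ q.p * y (ix q.c) + q.a * y (iy q.c)) := rfl

lemma co1 (q : Sec) (y : Fin 2 → ℝ) : q.co y 1 = 2 ^ q.h * y (iy q.c) := rfl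

lemma co_lin (q : Sec) (y z : Fin 2 → ℝ) (t : ℝ) (i : Fin 2) :
    q.co (fun j => y j + t * z j) i = q.co y i + t * q.co z i := by
  fin_cases i
  · change q.co _ 0 = q.co _ 0 + t * q.co _ 0
    rw [co0, co0, co0]
    ring
  · change q.co _ 1 = q.co _ 1 + t * q.co _ 1
    rw [co1, co1, co1]
    ring

lemma co_sub (q : Sec) (y z : Fin 2 → ℝ) (i : Fin 2) :
    q.co (fun j => y j - z j) i = q.co y i - q.co z i := by
  have h := co_lin q y z (-1) i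
  have e : (fun j => y j + -1 * z j) = fun j => y j - z j := by
    funext j
    ring
  rw [e] at h
  rw [h]
  ring

lemma co_smul (q : Sec) (z : Fin 2 → ℝ) (t : ℝ) (i : Fin 2) :
    q.co (fun j => t * z j) i = t * q.co z i := by
  have h := co_lin q (fun _ => 0) z t i
  have e : (fun j => (0 : ℝ) + t * z j) = fun j => t * z j := by
    funext j
    ring
  have e0 : q.co (fun _ => 0) i = 0 := by
    fin_cases i
    · change q.co _ 0 = 0
      rw [co0]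
      ring
    · change q.co _ 1 = 0
      rw [co1]
      ring
  rw [e, e0, zero_add] at h
  exact h

lemma pl1 {t : ℝ} (x : ℝ) (ht : 0 ≤ t) : |x| * t = |x * t| := by
  rw [abs_mul, abs_of_nonneg ht]

lemma pl2 {t : ℝ} (x : ℝ) (ht : 0 ≤ t) : t * |x| = |t * x| := by
  rw [abs_mul, abs_of_nonneg ht]

/-- The slope of the thick section. -/
lemma al_near (a : ℤ) (s : ℕ) : |(2 : ℝ) ^ s * ((a / 2 ^ s : ℤ) : ℝ) - a| ≤ 2 ^ s := by
  have hp : (0 : ℤ) < 2 ^ s := by positivity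
  have h1 := Int.ediv_mul_le a hp.ne'
  have h2 := Int.lt_ediv_add_one_mul_self a hp
  have h1' : (((a / 2 ^ s * 2 ^ s : ℤ)) : ℝ) ≤ a := by exact_mod_cast h1
  have h2' : (a : ℝ) < ((((a / 2 ^ s + 1) * 2 ^ s : ℤ)) : ℝ) := by exact_mod_cast h2
  push_cast at h1' h2'
  rw [abs_le]
  constructor <;> linarith

/-- The coordinates of the meet. -/
lemma meet_co {c : Bool} {h p s L : ℕ} {a α : ℤ} {k B : ℝ} (hs : s ≤ p) (hL : L ≤ h) (hk : 0 ≤ k)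
    (hα : |(2 : ℝ) ^ s * α - a| ≤ k * 2 ^ s) {y : Fin 2 → ℝ}
    (hy : ∀ i, |(Sec.mk c h p a).co y i| ≤ B) (i : Fin 2) :
    |(Sec.mk c (h - L) (p - s) α).co y i| ≤ (1 + k) * B / 2 ^ L := by
  have hB : 0 ≤ B := (abs_nonneg _).trans (hy 0)
  have h0 := hy 0
  have h1 := hy 1
  rw [co0] at h0
  rw [co1] at h1
  simp only at h0 h1
  obtain ⟨X, hX⟩ : ∃ X, X = y (ix c) := ⟨_, rfl⟩
  obtain ⟨Y, hY⟩ : ∃ Y, Y = y (iy c) := ⟨_, rfl⟩
  rw [← hX, ← hY] at h0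
  rw [← hY] at h1
  have eH : (2 : ℝ) ^ h = 2 ^ (h - L) * 2 ^ L := by rw [← pow_add, Nat.sub_add_cancel hL]
  have eP : (2 : ℝ) ^ p = 2 ^ (p - s) * 2 ^ s := by rw [← pow_add, Nat.sub_add_cancel hs]
  have pS : (1 : ℝ) ≤ 2 ^ s := one_le_pow₀ (by norm_num)
  have pL : (0 : ℝ) < 2 ^ L := by positivity
  fin_cases i
  · change |(Sec.mk c (h - L) (p - s) α).co y 0| ≤ _
    rw [co0]
    simp only
    rw [← hX, ← hY, le_div_iff₀ pL]
    have e1 : |2 ^ (h - L) * (2 ^ (p - s) * X + α * Y)| * 2 ^ L * 2 ^ s =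
        |2 ^ h * (2 ^ p * X + a * Y) + (2 ^ s * α - a) * (2 ^ h * Y)| := by
      rw [pl1 _ pL.le, pl1 _ (by positivity)]
      congr 1
      rw [eH, eP]
      ring
    have e2 : |(2 ^ s * α - a) * (2 ^ h * Y)| ≤ k * 2 ^ s * B := by
      rw [abs_mul]
      exact mul_le_mul hα h1 (abs_nonneg _) (by positivity)
    have e3 := abs_add_le (2 ^ h * (2 ^ p * X + a * Y)) ((2 ^ s * α - a) * (2 ^ h * Y))
    rw [← e1] at e3
    have e4 : B ≤ B * 2 ^ s := by nlinarith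
    have e5 : |2 ^ (h - L) * (2 ^ (p - s) * X + α * Y)| * 2 ^ L * 2 ^ s ≤
        (1 + k) * B * 2 ^ s := by nlinarith
    exact le_of_mul_le_mul_right e5 (by positivity)
  · change |(Sec.mk c (h - L) (p - s) α).co y 1| ≤ _
    rw [co1]
    simp only
    rw [← hY, le_div_iff₀ pL]
    have e1 : |2 ^ (h - L) * Y| * 2 ^ L = |2 ^ h * Y| := by
      rw [pl1 _ pL.le]
      congr 1
      rw [eH]
      ring
    rw [e1]
    nlinarith

/-- The coordinates of the join. -/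
lemma join_co {c : Bool} {h p s : ℕ} {a₀ a₁ α : ℤ} {B : ℝ} (hs : s ≤ p)
    (hα : |(2 : ℝ) ^ s * α - a₀| ≤ 2 ^ s) (ha : (2 : ℤ) ^ s ≤ |a₀ - a₁|) {y : Fin 2 → ℝ}
    (hy : ∀ i, |(Sec.mk c h p a₀).co y i| ≤ B) (hy' : ∀ i, |(Sec.mk c h p a₁).co y i| ≤ B)
    (i : Fin 2) : |(Sec.mk c (h + s) (p - s) α).co y i| ≤ 3 * B := by
  have hB : 0 ≤ B := (abs_nonneg _).trans (hy 0)
  have h0 := hy 0
  have h1 := hy' 0
  rw [co0] at h0 h1
  simp only at h0 h1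
  obtain ⟨X, hX⟩ : ∃ X, X = y (ix c) := ⟨_, rfl⟩
  obtain ⟨Y, hY⟩ : ∃ Y, Y = y (iy c) := ⟨_, rfl⟩
  rw [← hX, ← hY] at h0 h1
  have eP : (2 : ℝ) ^ p = 2 ^ (p - s) * 2 ^ s := by rw [← pow_add, Nat.sub_add_cancel hs]
  have pS : (0 : ℝ) < 2 ^ s := by positivity
  have ha' : (2 : ℝ) ^ s ≤ |(a₀ : ℝ) - a₁| := by exact_mod_cast ha
  have k2 : |2 ^ (h + s) * Y| = 2 ^ s * |2 ^ h * Y| := by
    rw [pl2 _ pS.le]
    congr 1
    rw [pow_add]
    ring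
  have k1 : |2 ^ (h + s) * Y| ≤ 2 * B := by
    have e1 : |((a₀ : ℝ) - a₁) * (2 ^ h * Y)| ≤ 2 * B := by
      have e2 : ((a₀ : ℝ) - a₁) * (2 ^ h * Y) =
          2 ^ h * (2 ^ p * X + a₀ * Y) - 2 ^ h * (2 ^ p * X + a₁ * Y) := by ring
      rw [e2]
      refine (abs_sub _ _).trans ?_
      linarith
    rw [abs_mul] at e1
    rw [k2]
    refine le_trans ?_ e1
    exact mul_le_mul_of_nonneg_right ha' (abs_nonneg _)
  fin_cases i
  · change |(Sec.mk c (h + s) (p - s) α).co y 0| ≤ _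
    rw [co0]
    simp only
    rw [← hX, ← hY]
    have e1 : (2 : ℝ) ^ (h + s) * (2 ^ (p - s) * X + α * Y) =
        2 ^ h * (2 ^ p * X + a₀ * Y) + (2 ^ s * α - a₀) * (2 ^ h * Y) := by
      rw [eP, pow_add]
      ring
    have e2 : |(2 ^ s * α - a₀) * (2 ^ h * Y)| ≤ |2 ^ (h + s) * Y| := by
      rw [abs_mul, k2]
      exact mul_le_mul_of_nonneg_right hα (abs_nonneg _)
    rw [e1]
    refine (abs_add_le _ _).trans ?_
    linarith
  · change |(Sec.mk c (h + s) (p - s) α).co y 1| ≤ _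
    rw [co1]
    simp only
    rw [← hY]
    linarith

/-- The coordinates of a thin section from those of the join. -/
lemma inv_co {c : Bool} {h p s : ℕ} {a α : ℤ} {k B : ℝ} (hs : s ≤ p) (hk : 0 ≤ k)
    (hα : |(a : ℝ) - 2 ^ s * α| ≤ k * 2 ^ s) {y : Fin 2 → ℝ}
    (hy : ∀ i, |(Sec.mk c (h + s) (p - s) α).co y i| ≤ B) (i : Fin 2) :
    |(Sec.mk c h p a).co y i| ≤ (1 + k) * B := by
  have hB : 0 ≤ B := (abs_nonneg _).trans (hy 0)
  have h0 := hy 0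
  have h1 := hy 1
  rw [co0] at h0
  rw [co1] at h1
  simp only at h0 h1
  obtain ⟨X, hX⟩ : ∃ X, X = y (ix c) := ⟨_, rfl⟩
  obtain ⟨Y, hY⟩ : ∃ Y, Y = y (iy c) := ⟨_, rfl⟩
  rw [← hX, ← hY] at h0
  rw [← hY] at h1
  have eP : (2 : ℝ) ^ p = 2 ^ (p - s) * 2 ^ s := by rw [← pow_add, Nat.sub_add_cancel hs]
  have pS : (1 : ℝ) ≤ 2 ^ s := one_le_pow₀ (by norm_num)
  have e3 : |2 ^ (h + s) * Y| = 2 ^ s * |2 ^ h * Y| := by
    rw [pl2 _ (by positivity)]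
    congr 1
    rw [pow_add]
    ring
  rw [e3] at h1
  fin_cases i
  · change |(Sec.mk c h p a).co y 0| ≤ _
    rw [co0]
    simp only
    rw [← hX, ← hY]
    have e1 : (2 : ℝ) ^ h * (2 ^ p * X + a * Y) =
        2 ^ (h + s) * (2 ^ (p - s) * X + α * Y) + (a - 2 ^ s * α) * (2 ^ h * Y) := by
      rw [eP, pow_add]
      ring
    have e2 : |(a - 2 ^ s * α) * (2 ^ h * Y)| ≤ k * B := by
      rw [abs_mul]
      calc |(a : ℝ) - 2 ^ s * α| * |2 ^ h * Y| ≤ k * 2 ^ s * |2 ^ h * Y| :=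
            mul_le_mul_of_nonneg_right hα (abs_nonneg _)
        _ = k * (2 ^ s * |2 ^ h * Y|) := by ring
        _ ≤ k * B := mul_le_mul_of_nonneg_left h1 hk
    rw [e1]
    refine (abs_add_le _ _).trans ?_
    linarith
  · change |(Sec.mk c h p a).co y 1| ≤ _
    rw [co1]
    simp only
    rw [← hY]
    have h2 : |2 ^ h * Y| ≤ 2 ^ s * |2 ^ h * Y| := by
      have := abs_nonneg ((2 : ℝ) ^ h * Y)
      nlinarith
    nlinarith

/-! ### The entropy of a label -/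

lemma fl_near {x y c : ℝ} (h : |x - y| ≤ c) : |((⌊x⌋ - ⌊y⌋ : ℤ) : ℝ)| ≤ c + 1 := by
  have h1 := Int.floor_le x
  have h2 := Int.lt_floor_add_one x
  have h3 := Int.floor_le y
  have h4 := Int.lt_floor_add_one y
  rw [abs_le] at h ⊢
  push_cast
  constructor <;> linarith [h.1, h.2]

lemma fl_eq {x y : ℝ} (h : ⌊x⌋ = ⌊y⌋) : |x - y| ≤ 1 := (Int.abs_sub_lt_one_of_floor_eq_floor h).le

lemma vec {Ω T : Type} [Fintype Ω] {k : ℕ} {p : Ω → ℝ} (hp : IsLaw p) (X : Ω → Fin k → ℤ)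
    (W : Ω → T) (B : ℝ)
    (hX : ∀ ω ω', 0 < p ω → 0 < p ω' → W ω = W ω' → ∀ i, |((X ω i - X ω' i : ℤ) : ℝ)| ≤ B) :
    CH p X W ≤ k * Real.log (2 * B + 1) := by
  have h := CH_le_vec hp.nonneg hp.sum_one X W (fun _ => B) hX
  rwa [Ex_const hp.sum_one] at h

/-- The entropy of a label given some variable `W`. -/
lemma lab_ent {w : ℕ} (G : Fam 2 w) (q : G.Ω → Sec) {S : Type} (W : G.Ω → S) (B₁ B₂ : ℝ)
    (hd : Det G.p W (fun ω => (G.T ω, q ω)))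
    (hV : ∀ ω ω', 0 < G.p ω → 0 < G.p ω' → W ω = W ω' → ∀ i,
      |(q ω).co (fun j => G.d ω j / 2 ^ w - G.d ω' j / 2 ^ w) i| ≤ B₂)
    (hX : ∀ ω ω', 0 < G.p ω → 0 < G.p ω' → W ω = W ω' →
      (∀ i, |(q ω).co (fun j => G.d ω j / 2 ^ w - G.d ω' j / 2 ^ w) i| ≤ 1) → ∀ i,
      |(q ω).co (fun j => G.x ω j - G.x ω' j) i| ≤ B₁) :
    CH G.p (Lab G q) W ≤ 2 * Real.log (2 * (B₁ + 1) + 1) + 2 * Real.log (2 * (B₂ + 1) + 1) := by
  have hp := G.isLaw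
  obtain ⟨V, hVd⟩ : ∃ V : G.Ω → Fin 2 → ℤ, V = fun ω => (q ω).lb (fun i => G.d ω i / 2 ^ w) :=
    ⟨_, rfl⟩
  obtain ⟨X, hXd⟩ : ∃ X : G.Ω → Fin 2 → ℤ, X = fun ω => (q ω).lb (G.x ω) := ⟨_, rfl⟩
  have hqe : ∀ ω ω', 0 < G.p ω → 0 < G.p ω' → W ω = W ω' → q ω = q ω' := by
    intro ω ω' h1 h2 h3
    exact (Prod.ext_iff.1 (hd ω ω' h1 h2 h3)).2
  have h1 : CH G.p (Lab G q) W ≤ CH G.p (fun ω => (X ω, V ω)) W := by
    refine CH_mono_left hp.nonneg ?_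
    intro ω ω' a b h
    have h2 : (X ω, V ω) = (X ω', V ω') := (Prod.ext_iff.1 h).1
    have h3 : W ω = W ω' := (Prod.ext_iff.1 h).2
    have h4 := hd ω ω' a b h3
    simp only [Prod.mk.injEq] at h2 h4
    unfold Lab
    rw [Prod.mk.injEq, Prod.mk.injEq, Prod.mk.injEq]
    refine ⟨h4, ?_, ?_⟩
    · have := h2.1
      rw [hXd] at this
      exact this
    · have := h2.2
      rw [hVd] at this
      exact this
  have h2 := CH_chain hp.nonneg X V W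
  have h3 : CH G.p V W ≤ (2 : ℕ) * Real.log (2 * (B₂ + 1) + 1) := by
    refine vec hp V W (B₂ + 1) fun ω ω' a b h i => ?_
    have e1 := hqe ω ω' a b h
    have e2 : V ω i = ⌊(q ω).co (fun j => G.d ω j / 2 ^ w) i⌋ := by rw [hVd]; rfl
    have e3 : V ω' i = ⌊(q ω).co (fun j => G.d ω' j / 2 ^ w) i⌋ := by rw [hVd, e1]; rfl
    rw [e2, e3]
    refine fl_near ?_
    rw [← co_sub]
    exact hV ω ω' a b h i
  have h4 : CH G.p X (fun ω => (V ω, W ω)) ≤ (2 : ℕ) * Real.log (2 * (B₁ + 1) + 1) := by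
    refine vec hp X _ (B₁ + 1) fun ω ω' a b h i => ?_
    have hW : W ω = W ω' := (Prod.ext_iff.1 h).2
    have hVe : V ω = V ω' := (Prod.ext_iff.1 h).1
    have e1 := hqe ω ω' a b hW
    have e2 : X ω i = ⌊(q ω).co (G.x ω) i⌋ := by rw [hXd]; rfl
    have e3 : X ω' i = ⌊(q ω).co (G.x ω') i⌋ := by rw [hXd, e1]; rfl
    rw [e2, e3]
    refine fl_near ?_
    rw [← co_sub]
    refine hX ω ω' a b hW (fun i => ?_) i
    rw [co_sub]
    refine fl_eq ?_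
    have e4 := congrFun hVe i
    rw [hVd] at e4
    have e5 : ⌊(q ω).co (fun j => G.d ω j / 2 ^ w) i⌋ = ⌊(q ω').co (fun j => G.d ω' j / 2 ^ w) i⌋ :=
      e4
    rw [e5, e1]
  push_cast at h3 h4
  linarith

/-- Equal labels: the differences are small. -/
lemma lab_eq {w : ℕ} (G : Fam 2 w) (q : G.Ω → Sec) {ω ω' : G.Ω} (h : Lab G q ω = Lab G q ω') :
    G.T ω = G.T ω' ∧ q ω = q ω' ∧ (∀ i, |(q ω).co (fun j => G.x ω j - G.x ω' j) i| ≤ 1) ∧
      ∀ i, |(q ω).co (fun j => G.d ω j / 2 ^ w - G.d ω' j / 2 ^ w) i| ≤ 1 := by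
  unfold Lab at h
  rw [Prod.mk.injEq, Prod.mk.injEq, Prod.mk.injEq] at h
  obtain ⟨⟨h1, h2⟩, h3, h4⟩ := h
  refine ⟨h1, h2, fun i => ?_, fun i => ?_⟩
  · rw [co_sub]
    refine fl_eq ?_
    have h5 := congrFun h3 i
    rw [h2] at h5 ⊢
    exact h5
  · rw [co_sub]
    refine fl_eq ?_
    have h5 := congrFun h4 i
    rw [h2] at h5 ⊢
    exact h5

/-- The family itself is a copy. -/
lemma get_self {κ : ℝ} {R w : ℕ} (G : Fam 2 w) (q : G.Ω → Sec)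
    (hq : ∀ ω, 0 < G.p ω → Ok w R (q ω)) {x : ℝ} (hx : x ≤ Psi κ G q) : Get κ R G x := by
  classical
  refine ⟨G.Ω, inferInstance, G.p, G.isLaw, id, q, ?_, hq, hx⟩
  intro ω
  unfold law
  simp

end S67

end Pool.KM7
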